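import Pool.Agent.H566W.Ana

/-!
# Analytic partitions of the reals into additive Borel semigroups

Such a partition has at most three pieces or exactly continuum many.
-/

namespace Pool.Agent.Results.MP_be984c_lc.AnalyticSemigroupPartition

open Set Filter Topology MeasureTheory
open Cardinal hiding univ

/-- An analytic relation with meagre sections on a nonempty Polish space has a perfect
independent set. -/
theorem perfect_independent {G : Type} [TopologicalSpace G] [PolishSpace G] [Nonempty G]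
    (R : G → G → Prop) (hR : AnalyticSet {p : G × G | R p.1 p.2})
    (hc : ∀ x, IsMeagre {y | R x y}) :
    ∃ h : (ℕ → Bool) → G, ∀ b b', b ≠ b' → ¬ R (h b) (h b') := by
  have hm : IsMeagre {p : G × G | R p.1 p.2} := by
    rw [AnalyticSet] at hR
    rcases hR with h | ⟨f, hf, hfr⟩
    · rw [h]; exact IsMeagre.empty
    · rw [← hfr]
      apply Pool.Agent.H566W.meagre_of_sections hf
      intro x
      rw [hfr]
      exact hc x
  obtain ⟨S, hSo, hSd, hSc, hSM⟩ := mem_residual_iff.1 hm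
  obtain ⟨W, hW⟩ := (hSc.insert univ).exists_eq_range ⟨univ, mem_insert _ _⟩
  have hWS : ∀ n, W n = univ ∨ W n ∈ S := by
    intro n
    have : W n ∈ insert univ S := by rw [hW]; exact ⟨n, rfl⟩
    exact this
  obtain ⟨h, hh1, hh2⟩ := Pool.Agent.H565R2.FO2.mycielski' W (fun n => by
    rcases hWS n with h | h
    · rw [h]; exact isOpen_univ
    · exact hSo _ h) (fun n => by
    rcases hWS n with h | h
    · rw [h]; exact dense_univ
    · exact hSd _ h)
  refine ⟨h, fun b b' hbb hRb => ?_⟩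
  refine hSM (a := (h b, h b')) (fun t ht => ?_) hRb
  have : t ∈ range W := by rw [← hW]; exact mem_insert_of_mem _ ht
  obtain ⟨n, rfl⟩ := this
  exact hh2 b b' hbb n

theorem nsmul_mem_of {A : Set ℝ} (hA : ∀ a ∈ A, ∀ b ∈ A, a + b ∈ A) {x : ℝ} (hx : x ∈ A) :
    ∀ n : ℕ, ((n : ℝ) + 1) * x ∈ A
  | 0 => by simpa using hx
  | n + 1 => by
    have h := hA _ (nsmul_mem_of hA hx n) _ hx
    have h2 : ((n : ℝ) + 1) * x + x = (((n + 1 : ℕ) : ℝ) + 1) * x := by
      push_cast
      ring
    rwa [h2] at h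

/-- A Borel semigroup which is not meagre in the positive half-line contains an interval around
some positive number. -/
theorem exists_interval {A : Set ℝ} (hAm : MeasurableSet A)
    (hA : ∀ a ∈ A, ∀ b ∈ A, a + b ∈ A) (h : ¬ IsMeagre (A ∩ Ioi 0)) :
    ∃ a ε : ℝ, 0 < ε ∧ ε < a ∧ Ioo (a - ε) (a + ε) ⊆ A := by
  have hBm : MeasurableSet (A ∩ Ioi 0) := hAm.inter measurableSet_Ioi
  obtain ⟨u, hu, huB⟩ := hBm.residualEq_isOpen
  have huB' : ∀ᶠ x in residual ℝ, x ∈ A ∩ Ioi 0 ↔ x ∈ u := Filter.eventuallyEq_set.1 huB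
  have hne : (u ∩ Ioi 0).Nonempty := by
    by_contra hcon
    rw [not_nonempty_iff_eq_empty] at hcon
    apply h
    rw [IsMeagre]
    filter_upwards [huB'] with x hx hxA
    have h1 : x ∈ u ∩ Ioi 0 := ⟨hx.1 hxA, hxA.2⟩
    rw [hcon] at h1
    exact h1
  obtain ⟨x, hxu, hx0⟩ := hne
  obtain ⟨ε, hε, hεu⟩ := Metric.isOpen_iff.1 (hu.inter isOpen_Ioi) x ⟨hxu, hx0⟩
  have hx0' : (0 : ℝ) < x := hx0
  have hεx : ε ≤ x := by
    by_contra hcon
    push Not at hcon
    have h1 : (0 : ℝ) ∈ Metric.ball x ε := by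
      rw [Metric.mem_ball, Real.dist_eq, zero_sub, abs_neg, abs_of_pos hx0']
      exact hcon
    have h2 := (hεu h1).2
    exact lt_irrefl _ (mem_Ioi.1 h2)
  refine ⟨2 * x, ε, hε, by linarith, ?_⟩
  intro z hz
  obtain ⟨hz1, hz2⟩ := hz
  -- both `B` and `z - B` are comeagre in a neighbourhood of `z / 2`
  have hrefl : ∀ᶠ y in residual ℝ, (z - y ∈ A ∩ Ioi 0 ↔ z - y ∈ u) := by
    have ho : IsOpenMap fun y : ℝ => z - y := (Homeomorph.subLeft z).isOpenMap
    have hcn : Continuous fun y : ℝ => z - y := (Homeomorph.subLeft z).continuous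
    exact (tendsto_residual_of_isOpenMap hcn ho).eventually huB'
  have hres : {y : ℝ | (y ∈ A ∩ Ioi 0 ↔ y ∈ u) ∧ (z - y ∈ A ∩ Ioi 0 ↔ z - y ∈ u)} ∈
      residual ℝ := huB'.and hrefl
  have hopen : IsOpen {y : ℝ | y ∈ Metric.ball x ε ∧ z - y ∈ Metric.ball x ε} := by
    refine Metric.isOpen_ball.inter (Metric.isOpen_ball.preimage ?_)
    exact continuous_const.sub continuous_id
  have hmem : z / 2 ∈ {y : ℝ | y ∈ Metric.ball x ε ∧ z - y ∈ Metric.ball x ε} := by
    have h1 : z / 2 ∈ Metric.ball x ε := by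
      rw [Metric.mem_ball, Real.dist_eq, abs_lt]
      constructor <;> linarith
    refine ⟨h1, ?_⟩
    have h2 : z - z / 2 = z / 2 := by ring
    rw [h2]
    exact h1
  obtain ⟨y, ⟨hy1, hy2⟩, hy3, hy4⟩ :=
    mem_closure_iff.1 (dense_of_mem_residual hres (z / 2)) _ hopen hmem
  have h1 : y ∈ A := (hy3.2 (hεu hy1).1).1
  have h2 : z - y ∈ A := (hy4.2 (hεu hy2).1).1
  have h3 := hA _ h1 _ h2
  have h4 : y + (z - y) = z := by ring
  rwa [h4] at h3

/-- If some piece is not meagre in the positive half-line then it contains the positive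
half-line. -/
theorem half_line {ι : Type} {A : ι → Set ℝ} (hAm : ∀ i, MeasurableSet (A i))
    (hA : ∀ i, ∀ a ∈ A i, ∀ b ∈ A i, a + b ∈ A i) (hd : ∀ i j, i ≠ j → Disjoint (A i) (A j))
    (hU : ⋃ i, A i = univ) {i : ι} (h : ¬ IsMeagre (A i ∩ Ioi 0)) : Ioi 0 ⊆ A i := by
  obtain ⟨a, ε, hε, hεa, hI⟩ := exists_interval (hAm i) (hA i) h
  intro t ht
  have ht0 : (0 : ℝ) < t := ht
  obtain ⟨j, hj⟩ := mem_iUnion.1 (hU ▸ mem_univ t : t ∈ ⋃ i, A i)
  obtain ⟨q, hq1, hq2⟩ := exists_rat_btwn (show (a - ε) / t < (a + ε) / t by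
    apply div_lt_div_of_pos_right _ ht0
    linarith)
  have hq0 : (0 : ℝ) < q := lt_trans (div_pos (by linarith) ht0) hq1
  have hq0' : (0 : ℚ) < q := by exact_mod_cast hq0
  have hnum : 0 < q.num := Rat.num_pos.2 hq0'
  obtain ⟨n, hn⟩ : ∃ n : ℕ, q.num = (n : ℤ) + 1 := ⟨(q.num - 1).toNat, by omega⟩
  obtain ⟨m, hm⟩ : ∃ m : ℕ, q.den = m + 1 := ⟨q.den - 1, by have := q.den_pos; omega⟩
  have hqe : (q : ℝ) = ((n : ℝ) + 1) / ((m : ℝ) + 1) := by
    rw [Rat.cast_def, hn, hm]
    push_cast
    rfl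
  have hmem : (q : ℝ) * t ∈ A i := by
    apply hI
    rw [div_lt_iff₀ ht0] at hq1
    rw [lt_div_iff₀ ht0] at hq2
    exact ⟨hq1, hq2⟩
  have h1 := nsmul_mem_of (hA i) hmem m
  have h2 := nsmul_mem_of (hA j) hj n
  have h3 : ((m : ℝ) + 1) * ((q : ℝ) * t) = ((n : ℝ) + 1) * t := by
    rw [hqe]
    have : ((m : ℝ) + 1) ≠ 0 := by positivity
    field_simp
  rw [h3] at h1
  by_cases hij : i = j
  · rw [hij]; exact hj
  · exact ((disjoint_left.1 (hd i j hij)) h1 h2).elim

/-- If all pieces are meagre in the open half-line `G` then there are continuum many of them. -/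
theorem continuum_le {ι : Type} {A : ι → Set ℝ} (hd : ∀ i j, i ≠ j → Disjoint (A i) (A j))
    (hU : ⋃ i, A i = univ) (hE : AnalyticSet {p : ℝ × ℝ | ∃ i, p.1 ∈ A i ∧ p.2 ∈ A i})
    {G : Set ℝ} (hG : IsOpen G) (hGne : G.Nonempty) (h : ∀ i, IsMeagre (A i ∩ G)) :
    𝔠 ≤ #ι := by
  have : Nonempty G := hGne.to_subtype
  have : PolishSpace G := hG.polishSpace
  have hE' : AnalyticSet {p : G × G | ∃ i, (p.1 : ℝ) ∈ A i ∧ (p.2 : ℝ) ∈ A i} :=
    hE.preimage (f := fun p : G × G => ((p.1 : ℝ), (p.2 : ℝ))) (by fun_prop)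
  obtain ⟨f, hf⟩ := perfect_independent
    (fun x y : G => ∃ i, (x : ℝ) ∈ A i ∧ (y : ℝ) ∈ A i) hE' (by
      intro x
      obtain ⟨i, hi⟩ := mem_iUnion.1 (hU ▸ mem_univ (x : ℝ) : (x : ℝ) ∈ ⋃ i, A i)
      have h1 : IsMeagre ((Subtype.val : G → ℝ) ⁻¹' (A i ∩ G)) :=
        (h i).preimage_of_isOpenMap continuous_subtype_val hG.isOpenMap_subtype_val
      refine h1.mono ?_
      rintro y ⟨j, hj1, hj2⟩
      by_cases hij : i = j
      · subst hij
        exact ⟨hj2, y.2⟩
      · exact ((disjoint_left.1 (hd i j hij)) hi hj1).elim)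
  have hc : ∀ x : ℝ, ∃ i, x ∈ A i := fun x => mem_iUnion.1 (hU ▸ mem_univ x : x ∈ ⋃ i, A i)
  choose c hc using hc
  have hinj : Function.Injective fun b : ℕ → Bool => c (f b) := by
    intro b b' hbb
    by_contra hne
    refine hf b b' hne ⟨c (f b), hc _, ?_⟩
    have hbb' : c (f b : ℝ) = c (f b' : ℝ) := hbb
    rw [hbb']
    exact hc _
  have h1 := Cardinal.mk_le_of_injective hinj
  have h2 : #(ℕ → Bool) = 𝔠 := by simp
  rwa [h2] at h1

/-- A partition of the reals into additive Borel semigroups whose induced equivalence relation is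
analytic has at most three pieces or exactly continuum many pieces. -/
theorem result : ∀ (ι : Type) (A : ι → Set ℝ),
    (∀ i, (A i).Nonempty) → (∀ i, MeasurableSet (A i)) →
    (∀ i, ∀ a ∈ A i, ∀ b ∈ A i, a + b ∈ A i) →
    (∀ i j, i ≠ j → Disjoint (A i) (A j)) → ⋃ i, A i = univ →
    AnalyticSet {p : ℝ × ℝ | ∃ i, p.1 ∈ A i ∧ p.2 ∈ A i} →
    #ι ≤ 3 ∨ #ι = 𝔠 := by
  intro ι A hne hAm hA hd hU hE
  have hle : #ι ≤ 𝔠 := by
    choose r hr using hne
    have hinj : Function.Injective r := by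
      intro i j hij
      by_contra hne
      exact (disjoint_left.1 (hd i j hne)) (hr i) (hij ▸ hr j)
    have := Cardinal.mk_le_of_injective hinj
    rwa [Cardinal.mk_real] at this
  by_cases h1 : ∃ i, ¬ IsMeagre (A i ∩ Ioi 0)
  · by_cases h2 : ∃ i, ¬ IsMeagre (A i ∩ Iio 0)
    · left
      obtain ⟨i, hi⟩ := h1
      obtain ⟨j, hj⟩ := h2
      have hi' : Ioi 0 ⊆ A i := half_line hAm hA hd hU hi
      have hj' : Iio 0 ⊆ A j := by
        -- reflect
        have hcn : Continuous fun y : ℝ => -y := continuous_neg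
        have ho : IsOpenMap fun y : ℝ => -y := (Homeomorph.neg ℝ).isOpenMap
        have h3 : Ioi 0 ⊆ (fun k => (fun y : ℝ => -y) ⁻¹' A k) j := by
          apply half_line (A := fun k => (fun y : ℝ => -y) ⁻¹' A k)
          · intro k
            exact hcn.measurable (hAm k)
          · intro k a ha b hb
            have h4 := hA k _ ha _ hb
            change -(a + b) ∈ A k
            have h5 : -(a + b) = -a + -b := by ring
            rw [h5]
            exact h4
          · intro k l hkl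
            exact (hd k l hkl).preimage _
          · rw [← preimage_iUnion, hU, preimage_univ]
          · intro hcon
            apply hj
            have h4 := hcon.preimage_of_isOpenMap hcn ho
            refine h4.mono ?_
            rintro y ⟨hy1, hy2⟩
            refine ⟨?_, ?_⟩
            · change - -y ∈ A j
              rw [neg_neg]
              exact hy1
            · change 0 < -y
              have : y < 0 := hy2
              linarith
        intro y hy
        have hy0 : y < 0 := hy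
        have h4 : -y ∈ (fun y : ℝ => -y) ⁻¹' A j := h3 (show 0 < -y by linarith)
        change - -y ∈ A j at h4
        rwa [neg_neg] at h4
      obtain ⟨k, hk⟩ := mem_iUnion.1 (hU ▸ mem_univ (0 : ℝ) : (0 : ℝ) ∈ ⋃ i, A i)
      have hall : ∀ l, l = i ∨ l = j ∨ l = k := by
        intro l
        obtain ⟨x, hx⟩ := hne l
        rcases lt_trichotomy x 0 with hx0 | hx0 | hx0
        · right; left
          by_contra hlj
          exact (disjoint_left.1 (hd l j hlj)) hx (hj' hx0)
        · right; right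
          by_contra hlk
          exact (disjoint_left.1 (hd l k hlk)) hx (hx0 ▸ hk)
        · left
          by_contra hli
          exact (disjoint_left.1 (hd l i hli)) hx (hi' hx0)
      have hsurj : Function.Surjective (fun n : Fin 3 => (![i, j, k] n : ι)) := by
        intro l
        rcases hall l with h | h | h
        · exact ⟨0, by simp [h]⟩
        · exact ⟨1, by simp [h]⟩
        · exact ⟨2, by simp [h]⟩
      have h3 := Cardinal.mk_le_of_surjective hsurj
      simpa using h3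
    · right
      push Not at h2
      exact le_antisymm hle (continuum_le hd hU hE isOpen_Iio ⟨-1, by simp⟩ h2)
  · right
    push Not at h1
    exact le_antisymm hle (continuum_le hd hU hE isOpen_Ioi ⟨1, by simp⟩ h1)

end Pool.Agent.Results.MP_be984c_lc.AnalyticSemigroupPartition
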